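import Mathlib
import Pool.Agent.NE.Main
import Pool.Agent.NE.BridgeE

/-!
# MP_3ff0ea_an, Q2: the reciprocal sum of Neumann eigenvalues and the half-measure ball in `ℝⁿ`

For every `n ≥ 1` and every nonempty bounded open `Ω ⊆ ℝⁿ` (no regularity of the boundary is needed),
`∑_{i=2}^{n+1} 1/μ_i(Ω) ≥ n / μ_1(B)` for a ball `B` with `|B| = |Ω|/2`. The inequality holds in
`[0, ∞]`, with `1/0 = ∞`.

Proof. Fold `Ω` along a hyperplane and use the `n` functions `g(|y|) ⟨y, ξ⟩ / |y|`, `y = F(x) - A`, where
`F` is the fold and `g` the radial profile of the first eigenfunctions of the ball. A degree argument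
(every continuous even tangent field on `Sⁿ` has a zero) yields a fold and a centre for which they are
all orthogonal to the constants and to an almost-minimiser `u` of the Rayleigh quotient for `μ_1`.
The Ritz values of this trial space satisfy the inequality by a comparison of quadratic forms: the
two form matrices are compared with `a₀ - w N` and `b₀ + k N` for one traceless matrix `N`.
-/

set_option autoImplicit false

open MeasureTheory
open scoped ENNReal

namespace Pool.Agent.Results.MP_3ff0ea_an.HalfBallEuclid

open Pool.Agent.NE.St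

theorem result (n : ℕ) (hn : 1 ≤ n) (Ω : Set (E n)) (hΩ : IsOpen Ω) (hne : Ω.Nonempty)
    (hb : Bornology.IsBounded Ω) (c : E n) (R : ℝ)
    (hR : vol n (Metric.ball c R) = vol n Ω / 2) :
    (n : ℝ≥0∞) * (neumann (Metric.ball c R) 1)⁻¹ ≤
      ∑ i ∈ Finset.Icc 2 (n + 1), (neumann Ω i)⁻¹ := by
  rw [Pool.Agent.NE.neumann_eq_st Metric.isOpen_ball]
  simp_rw [Pool.Agent.NE.neumann_eq_st hΩ]
  exact Pool.Agent.NE.main hn Ω hΩ hne hb c R hR

end Pool.Agent.Results.MP_3ff0ea_an.HalfBallEuclid
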