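import Mathlib
import Pool.Agent.NE.SMain
import Pool.Agent.NE.BridgeS

/-!
# MP_3ff0ea_an, Q1: the reciprocal sum of Neumann eigenvalues and the half-measure cap of `S^n`

For every `n ≥ 1` and every nonempty open `Ω ⊆ S^n` (no regularity of the boundary is needed),
`∑_{i=2}^{n+1} 1/μ_i(Ω) ≥ n / μ_1(B)` for a geodesic ball `B` with `|B| = |Ω|/2`. The inequality holds in
`[0, ∞]`, with `1/0 = ∞`.

Proof. Fold `Ω` across a great hypersphere and use the `n` functions `g(r) ⟨θ, ξ⟩` in polar coordinates
`(r, θ)` with pole `A`, `ξ ⟂ A`, where `g` is the profile of the first eigenfunctions of the cap,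
constant on `[R, π - R]` and symmetric. A degree argument yields a fold and a pole for which they are
all orthogonal to the constants and to an almost-minimiser `u` of the Rayleigh quotient for `μ_1`.
The Ritz values of this trial space satisfy the inequality by a comparison of quadratic forms: the
two form matrices are compared with `a₀ - w N` and `b₀ + k N` for one traceless matrix `N`.

A ball of `S^n` is described by its centre `c` and its chordal radius `ρ`; the balls of the metric
induced from `ℝ^{n+1}` are exactly the geodesic balls.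
-/

set_option autoImplicit false

open MeasureTheory
open scoped ENNReal

namespace Pool.Agent.Results.MP_3ff0ea_an.HalfCapSphere

open Pool.Agent.NE.St

theorem result (n : ℕ) (hn : 1 ≤ n) (Ω : Set (Sph n)) (hΩ : IsOpen Ω) (hne : Ω.Nonempty)
    (c : Sph n) (ρ : ℝ) (hρ : surf n (Metric.ball c ρ) = surf n Ω / 2) :
    (n : ℝ≥0∞) * (neumannS (Metric.ball c ρ) 1)⁻¹ ≤
      ∑ i ∈ Finset.Icc 2 (n + 1), (neumannS Ω i)⁻¹ := by
  rw [Pool.Agent.NE.neumannS_eq_st Metric.isOpen_ball]
  simp_rw [Pool.Agent.NE.neumannS_eq_st hΩ]
  exact Pool.Agent.NE.mainS hn Ω hΩ hne c ρ hρ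

end Pool.Agent.Results.MP_3ff0ea_an.HalfCapSphere
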